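import Pool.Agent.N733.TG.E
import Pool.Agent.Results.MP_0da313_nt.LinearPairsEveryModulus

/-!
# Prime values along `x + y = n` for the values `n = α f(m) + h` of multiplicative functions

We consider the admissible families `f₁ = (u + 2) x + u y + a`, `f₂ = v x + (v + 2) y + b` (`u`, `v ≥ 0` even, `a`, `b`
odd) and the integers `n = α f(m) + h`, where `f` is a positive multiplicative function of at most polynomial growth with
`f p = p + c` for all large primes `p`, for instance Euler's function or the sum of the divisors, `α ≥ 1` and `h` is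
an integer with `(u + v + 2) h + a + b ≠ 0`. For almost all `m` the integer `n` is `x + y` with `x, y > 0` and both
`|f₁(x, y)|`, `|f₂(x, y)|` prime, and the number of these `x` in windows of `[0, n]` is asymptotically the predicted one.
The values of such functions are taken with large multiplicities, and they belong to a set of density zero.

Proof. Write `m = k w` where `k` is composed of the primes `≤ x^δ`. For most `m` one has `k ≤ x^η`, and `w` is a product of
a bounded number of different primes. So `n` is congruent to `h` modulo `q = α f(k)`, which is small compared to `x`, and the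
starting theorem on this problem in the residue classes of every modulus (`LinearPairsEveryModulus`, which rests on
`R460/GH`) can be applied for every `k`. A value of `f(w)` is taken at most `(1 + τ)^J` times, `τ` its number of divisors,
which is harmless on average, because of the power of the logarithm in that theorem.
-/

set_option autoImplicit false

namespace Pool.Agent.N733.Shelf.LinearFamilies

open Finset Filter Topology
open Pool.Agent.Results.MP_0da313_nt.LinearPairsEveryModulus (Admissible family Good exceptional)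

/-- A positive multiplicative function of at most polynomial growth with `f p = p + c` for all large primes `p`. -/
structure Shifted (f : ℕ → ℕ) (c : ℤ) : Prop where
  mul : ∀ m n : ℕ, Nat.Coprime m n → f (m * n) = f m * f n
  pos : ∀ m : ℕ, 1 ≤ m → 1 ≤ f m
  growth : ∃ C D : ℕ, ∀ m : ℕ, 1 ≤ m → f m ≤ C * m ^ D
  prime : ∃ P : ℕ, ∀ p : ℕ, P ≤ p → p.Prime → (f p : ℤ) = p + c

open Classical in
/-- The proportion of the positive integers `m ≤ N` without the property `P` tends to `0`. -/
def AlmostAll (P : ℕ → Prop) : Prop :=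
  Tendsto (fun N : ℕ => (((Icc 1 N).filter (fun m => ¬ P m)).card : ℝ) / N) atTop (𝓝 0)

theorem good_mono {ε : ℝ} {W A : ℕ} (hWA : W ≤ A) {u v : ℕ} {a b : ℤ} {n : ℕ} (hn : 3 ≤ n)
    (h : Good ε A u v a b n) : Good ε W u v a b n := by
  refine ⟨h.1, fun y₁ y₂ h12 hy hlen => h.2 y₁ y₂ h12 hy (le_trans ?_ hlen)⟩
  have hn3 : (3 : ℝ) ≤ n := by exact_mod_cast hn
  have hL1 : 1 ≤ Real.log n := by
    rw [Real.le_log_iff_exp_le (by linarith)]
    have := Real.exp_one_lt_d9
    linarith
  apply div_le_div_of_nonneg_left (by linarith) (by positivity)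
  exact pow_le_pow_right₀ hL1 hWA

/-- the exceptional set in the classes of `h` -/
theorem cb (u v : ℕ) (hu : 2 ∣ u) (hv : 2 ∣ v) (a b : ℤ) (ha : Odd a) (hb : Odd b) (h : ℤ)
    (hne : ((u : ℤ) + v + 2) * h + a + b ≠ 0) (ε : ℝ) (hε : 0 < ε) (W A : ℕ) :
    Pool.Agent.N733.TG.CB h (fun n => n < 3 ∨ Good ε W u v a b n) A := by
  obtain ⟨X₀, hX₀⟩ := (Pool.Agent.Results.MP_0da313_nt.LinearPairsEveryModulus.result u v hu hv a b ha hb).2 ε hε
    (1 / 12) (by norm_num) (W + A) 1
  have hlog := (Real.tendsto_log_atTop.comp (tendsto_natCast_atTop_atTop (R := ℝ))).eventually_ge_atTop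
    ((((u : ℤ) + v + 2) * h + a + b).natAbs + 1 : ℝ)
  rw [eventually_atTop] at hlog
  obtain ⟨X₁, hX₁⟩ := hlog
  refine ⟨max X₀ X₁, fun X hX q hq hqX S hS => ?_⟩
  have h1 := hX₁ X ((le_max_right _ _).trans hX)
  simp only [Function.comp] at h1
  have hgcd : (Int.gcd (((u : ℤ) + v + 2) * h + a + b) q : ℝ) ≤ Real.log X ^ 1 := by
    rw [pow_one]
    refine le_trans ?_ (by linarith : ((((u : ℤ) + v + 2) * h + a + b).natAbs : ℝ) ≤ Real.log X)
    have : Int.gcd (((u : ℤ) + v + 2) * h + a + b) q ≤ (((u : ℤ) + v + 2) * h + a + b).natAbs :=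
      Nat.le_of_dvd (Int.natAbs_pos.2 hne) (Nat.gcd_dvd_left _ _)
    exact_mod_cast this
  have h2 := hX₀ X ((le_max_left _ _).trans hX) q hq (by
    rw [show (2 / 3 - 1 / 12 : ℝ) = 7 / 12 by norm_num]
    exact hqX) h hgcd
  have hfin : (exceptional ε (W + A) u v a b X q h).Finite :=
    (finite_toSet (Icc 1 X)).subset (fun n hn => by
      rw [mem_coe, mem_Icc]
      exact ⟨hn.1, hn.2.1⟩)
  have h3 : S.card ≤ (exceptional ε (W + A) u v a b X q h).ncard := by
    rw [← Set.ncard_coe_finset]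
    apply Set.ncard_le_ncard _ hfin
    intro n hn
    obtain ⟨e1, e2, e3, e4⟩ := hS n hn
    push Not at e4
    exact ⟨e1, e2, e3, fun hg => e4.2 (good_mono (Nat.le_add_right W A) e4.1 hg)⟩
  have h4 : (S.card : ℝ) ≤ ((exceptional ε (W + A) u v a b X q h).ncard : ℝ) := by exact_mod_cast h3
  refine h4.trans (h2.trans ?_)
  have hl1 : 1 ≤ Real.log X := by
    have : (0 : ℝ) ≤ (((u : ℤ) + v + 2) * h + a + b).natAbs := Nat.cast_nonneg _
    linarith
  have hq0 : (0 : ℝ) < q := by exact_mod_cast hq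
  apply div_le_div_of_nonneg_left (Nat.cast_nonneg X) (by positivity)
  exact mul_le_mul_of_nonneg_left (pow_le_pow_right₀ hl1 (Nat.le_add_left A W)) hq0.le

theorem sm_of {f : ℕ → ℕ} {c : ℤ} (hf : Shifted f c) : Pool.Agent.N733.TG.SM f c :=
  ⟨hf.mul, hf.pos, hf.growth, hf.prime⟩

theorem card_mono' {N : ℕ} {P Q : ℕ → Prop} {dP : DecidablePred P} {dQ : DecidablePred Q} (h : ∀ m, P m → Q m) :
    (@Finset.filter _ P dP (Icc 1 N)).card ≤ (@Finset.filter _ Q dQ (Icc 1 N)).card :=
  card_le_card (fun m hm => Finset.mem_filter.2 ⟨(Finset.mem_filter.1 hm).1, h m (Finset.mem_filter.1 hm).2⟩)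

open Classical in
theorem almostAll_of (P : ℕ → Prop) (h : ∀ ε : ℝ, 0 < ε → ∃ N₀ : ℕ, ∀ N : ℕ, N₀ ≤ N →
    (((Icc 1 N).filter (fun m => ¬ P m)).card : ℝ) ≤ ε * N) : AlmostAll P := by
  unfold AlmostAll
  rw [Metric.tendsto_atTop]
  intro ε hε
  obtain ⟨N₀, hN₀⟩ := h (ε / 2) (by positivity)
  refine ⟨max N₀ 1, fun N hN => ?_⟩
  have h1 := hN₀ N (le_trans (le_max_left _ _) hN)
  have h2 : (0 : ℝ) < N := by exact_mod_cast (le_trans (le_max_right N₀ 1) hN)
  rw [Real.dist_eq, sub_zero, abs_of_nonneg (by positivity), div_lt_iff₀ h2]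
  nlinarith

/-- large values: `α f m + h < 3` for few `m` -/
theorem cb3 (h : ℤ) (A : ℕ) : Pool.Agent.N733.TG.CB h (fun n => 3 ≤ n) A := by
  have h2 := (isLittleO_log_rpow_rpow_atTop (s := (5 / 12 : ℝ)) (A : ℝ) (by norm_num)).bound
    (c := 1 / 2) (by positivity)
  have h3 := (tendsto_natCast_atTop_atTop (R := ℝ)).eventually h2
  obtain ⟨X₀, hX₀⟩ := eventually_atTop.1 h3
  refine ⟨max X₀ 3, fun X hX q hq hqX S hS => ?_⟩
  have h4 := hX₀ X ((le_max_left _ _).trans hX)
  have hX3 : (3 : ℝ) ≤ X := by exact_mod_cast (le_max_right _ _).trans hX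
  have hX0 : (0 : ℝ) < X := by linarith
  have hl : 0 ≤ Real.log X := Real.log_nonneg (by linarith)
  rw [Real.norm_of_nonneg (by positivity), Real.norm_of_nonneg (by positivity), Real.rpow_natCast] at h4
  have hq0 : (0 : ℝ) < q := by exact_mod_cast hq
  have hl1 : 1 ≤ Real.log X := by
    rw [Real.le_log_iff_exp_le (by linarith)]
    have := Real.exp_one_lt_d9
    linarith
  have hS2 : S.card ≤ 2 := by
    have : S ⊆ Icc 1 2 := by
      intro n hn
      obtain ⟨e1, _, _, e4⟩ := hS n hn
      rw [mem_Icc]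
      omega
    exact (card_le_card this).trans (by simp)
  have hS2' : (S.card : ℝ) ≤ 2 := by exact_mod_cast hS2
  refine hS2'.trans ?_
  rw [le_div_iff₀ (by positivity)]
  calc 2 * (q * Real.log X ^ A) ≤ 2 * ((X : ℝ) ^ (7 / 12 : ℝ) * (1 / 2 * (X : ℝ) ^ (5 / 12 : ℝ))) := by gcongr
    _ = (X : ℝ) ^ (7 / 12 : ℝ) * (X : ℝ) ^ (5 / 12 : ℝ) := by ring
    _ = X := by
      rw [← Real.rpow_add hX0]
      norm_num

theorem general (u v : ℕ) (hu : 2 ∣ u) (hv : 2 ∣ v) (a b : ℤ) (ha : Odd a) (hb : Odd b) (f : ℕ → ℕ) (c : ℤ)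
    (hf : Shifted f c) (α : ℕ) (hα : 1 ≤ α) (h : ℤ) (hne : ((u : ℤ) + v + 2) * h + a + b ≠ 0) (ε : ℝ) (hε : 0 < ε)
    (W : ℕ) :
    AlmostAll (fun m => 0 < (α : ℤ) * f m + h ∧ Good ε W u v a b ((α : ℤ) * f m + h).toNat) := by
  classical
  apply almostAll_of
  intro δ hδ
  obtain ⟨N₁, h1⟩ := Pool.Agent.N733.TG.dens' (sm_of hf) α hα h (fun n => n < 3 ∨ Good ε W u v a b n)
    (fun A => cb u v hu hv a b ha hb h hne ε hε W A) (δ / 2) (by positivity)
  obtain ⟨N₂, h2⟩ := Pool.Agent.N733.TG.dens' (sm_of hf) α hα h (fun n => 3 ≤ n) (fun A => cb3 h A) (δ / 2)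
    (by positivity)
  refine ⟨max N₁ N₂, fun N hN => ?_⟩
  have b1 := h1 N ((le_max_left _ _).trans hN)
  have b2 := h2 N ((le_max_right _ _).trans hN)
  have hc : ((Icc 1 N).filter (fun m => ¬ (0 < (α : ℤ) * f m + h ∧
      Good ε W u v a b ((α : ℤ) * f m + h).toNat))).card ≤
      ((Icc 1 N).filter (fun m => ¬ (0 < (α : ℤ) * f m + h ∧ (((α : ℤ) * f m + h).toNat < 3 ∨
        Good ε W u v a b ((α : ℤ) * f m + h).toNat)))).card +
      ((Icc 1 N).filter (fun m => ¬ (0 < (α : ℤ) * f m + h ∧ 3 ≤ ((α : ℤ) * f m + h).toNat))).card := by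
    refine le_trans (card_le_card ?_) (card_union_le _ _)
    intro m hm
    rw [mem_filter] at hm
    rw [mem_union, mem_filter, mem_filter]
    by_cases h3 : 0 < (α : ℤ) * f m + h ∧ 3 ≤ ((α : ℤ) * f m + h).toNat
    · left
      refine ⟨hm.1, fun h4 => hm.2 ⟨h3.1, ?_⟩⟩
      rcases h4.2 with h5 | h5
      · omega
      · exact h5
    · right
      exact ⟨hm.1, h3⟩
  have hc' : (((Icc 1 N).filter (fun m => ¬ (0 < (α : ℤ) * f m + h ∧
      Good ε W u v a b ((α : ℤ) * f m + h).toNat))).card : ℝ) ≤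
      (((Icc 1 N).filter (fun m => ¬ (0 < (α : ℤ) * f m + h ∧ (((α : ℤ) * f m + h).toNat < 3 ∨
        Good ε W u v a b ((α : ℤ) * f m + h).toNat)))).card : ℝ) +
      ((Icc 1 N).filter (fun m => ¬ (0 < (α : ℤ) * f m + h ∧ 3 ≤ ((α : ℤ) * f m + h).toNat))).card := by
    exact_mod_cast hc
  have b1' : (((Icc 1 N).filter (fun m => ¬ (0 < (α : ℤ) * f m + h ∧ (((α : ℤ) * f m + h).toNat < 3 ∨
        Good ε W u v a b ((α : ℤ) * f m + h).toNat)))).card : ℝ) ≤ δ / 2 * N := by
    refine le_trans (le_of_eq ?_) b1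
    congr!
  have b2' : (((Icc 1 N).filter (fun m => ¬ (0 < (α : ℤ) * f m + h ∧
      3 ≤ ((α : ℤ) * f m + h).toNat))).card : ℝ) ≤ δ / 2 * N := by
    refine le_trans (le_of_eq ?_) b2
    congr!
  refine le_trans (le_of_eq ?_) (hc'.trans (by linarith))
  congr!

theorem shifted_totient : Shifted Nat.totient (-1) where
  mul := fun m n h => Nat.totient_mul h
  pos := fun m hm => Nat.totient_pos.2 hm
  growth := ⟨1, 1, fun m _ => by rw [one_mul, pow_one]; exact Nat.totient_le m⟩
  prime := ⟨0, fun p _ hp => by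
    rw [Nat.totient_prime hp]
    have := hp.pos
    omega⟩

theorem shifted_sigma : Shifted (fun m => ∑ d ∈ m.divisors, d) 1 where
  mul := fun m n h => by
    have := ArithmeticFunction.isMultiplicative_sigma (k := 1).map_mul_of_coprime h
    simpa [ArithmeticFunction.sigma_one_apply] using this
  pos := fun m hm => by
    calc 1 ≤ m := hm
      _ ≤ ∑ d ∈ m.divisors, d := single_le_sum (f := fun d => d) (fun _ _ => Nat.zero_le _)
        (Nat.mem_divisors_self m (by omega))
  growth := ⟨1, 2, fun m hm => by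
    calc ∑ d ∈ m.divisors, d ≤ ∑ d ∈ m.divisors, m := sum_le_sum (fun d hd => Nat.divisor_le hd)
      _ = m.divisors.card * m := by rw [sum_const, smul_eq_mul]
      _ ≤ m * m := Nat.mul_le_mul_right _ (Nat.card_divisors_le_self m)
      _ = 1 * m ^ 2 := by ring⟩
  prime := ⟨0, fun p _ hp => by
    rw [Nat.Prime.sum_divisors hp]
    push_cast
    ring⟩

/-- **The values of multiplicative functions.** Let `u, v ≥ 0` be even and `a, b` odd. (1) The family
`f₁ = (u + 2) x + u y + a`, `f₂ = v x + (v + 2) y + b` is admissible. (2) Let `f` be a positive multiplicative function of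
at most polynomial growth with `f p = p + c` for all large primes `p`, let `α ≥ 1`, and let `h` be an integer with
`(u + v + 2) h + a + b ≠ 0`. For almost all `m` the integer `n = α f(m) + h` is positive and good: it is `x + y` with
`x, y > 0` and `|f₁(x, y)|`, `|f₂(x, y)|` prime, and the number of such `x` in windows of a length of at least
`n / (log n)^W` is the predicted one up to the factor `1 ± ε`. (3) Euler's function and the sum of the divisors are
examples of such functions `f`. -/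
theorem result (u v : ℕ) (hu : 2 ∣ u) (hv : 2 ∣ v) (a b : ℤ) (ha : Odd a) (hb : Odd b) :
    Admissible (family u v a b) ∧
    (∀ (f : ℕ → ℕ) (c : ℤ), Shifted f c → ∀ (α : ℕ) (h : ℤ), 1 ≤ α → ((u : ℤ) + v + 2) * h + a + b ≠ 0 →
      ∀ ε : ℝ, 0 < ε → ∀ W : ℕ,
        AlmostAll (fun m => 0 < (α : ℤ) * f m + h ∧ Good ε W u v a b ((α : ℤ) * f m + h).toNat)) ∧
    Shifted Nat.totient (-1) ∧ Shifted (fun m => ∑ d ∈ m.divisors, d) 1 :=
  ⟨(Pool.Agent.Results.MP_0da313_nt.LinearPairsEveryModulus.result u v hu hv a b ha hb).1,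
    fun f c hf α h hα hne ε hε W => general u v hu hv a b ha hb f c hf α hα h hne ε hε W,
    shifted_totient, shifted_sigma⟩

end Pool.Agent.N733.Shelf.LinearFamilies
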