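import Pool.Agent.N733.TG.D
import Pool.Agent.R460.GH.Conv

/-!
# Goldbach's problem for the values of Euler's function: `φ(p) + φ(q) = φ(m)` for almost all `m`

For almost all positive integers `m` the even integer `φ(m) + 2` is a sum of two primes, with the number of
representations predicted by Hardy and Littlewood. Hence `φ(p) + φ(q) = φ(m)` is solvable in primes `p`, `q` and the
system `φ(n - x) + 1 = n - x`, `φ(n + x) + 1 = n + x` has an integral solution `x` for `n = φ(m) / 2 + 1`. The same is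
true for `f(m) + a`, where `a` is any nonzero integer and `f` any positive multiplicative function of at most polynomial
growth with `f(p) = p + c` for all large primes `p` (for instance the sum of the divisors). The values of such functions
are taken with large multiplicities, so this does not follow from the bounds for the number of even integers up to `x`
which are not sums of two primes: the number of `m ≤ x` with `φ(m) = v` can be larger than `x^(1/2)`.

Proof. Write `m = k u` where `k` is composed of the primes `≤ x^δ`. For most `m` one has `k ≤ x^η`, and `u` is a product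
of a bounded number of different primes. So `f(m) + a = f(k) f(u) + a` lies in the residue class of `a` modulo
`q = f(k)`, which is small compared to `x`, and the theorem on Goldbach representations in the residue classes of every modulus
`q ≤ x^(2/3-ρ)` (`R460/GH`, starting files) can be applied to every `k`. A value `v = f(u)` is taken at most
`(1 + τ(v))^J` times, which is harmless on average, because of the power of the logarithm in that theorem.
-/

set_option autoImplicit false

namespace Pool.Agent.N733.Shelf.TotientValues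

open Finset Filter Topology
open Pool.Agent.H560R3.GB (g HL sing)

/-- A positive multiplicative function of at most polynomial growth with `f p = p + c` for all large primes `p`. -/
structure Shifted (f : ℕ → ℕ) (c : ℤ) : Prop where
  mul : ∀ m n : ℕ, Nat.Coprime m n → f (m * n) = f m * f n
  pos : ∀ m : ℕ, 1 ≤ m → 1 ≤ f m
  growth : ∃ C D : ℕ, ∀ m : ℕ, 1 ≤ m → f m ≤ C * m ^ D
  prime : ∃ P : ℕ, ∀ p : ℕ, P ≤ p → p.Prime → (f p : ℤ) = p + c

/-- The number of primes `p` with `y₁ < p ≤ y₂` such that `n - p` is a prime. -/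
def count (n y₁ y₂ : ℕ) : ℕ := ((Ioc y₁ y₂).filter (fun p => p.Prime ∧ (n - p).Prime)).card

/-- (1) The formula of Hardy and Littlewood for `g n` holds with a relative error of at most `ε`; (2) in every
window `(y₁, y₂] ⊆ (0, n]` of a length of at least `n / (log n)^W` the number of primes `p` such that `n - p` is a
prime is `sing n * (y₂ - y₁) / (log n)²` with a relative error of at most `ε`. -/
def Formula (ε : ℝ) (W n : ℕ) : Prop :=
  |(g n : ℝ) - HL n| ≤ ε * HL n ∧
  ∀ y₁ y₂ : ℕ, y₁ < y₂ → y₂ ≤ n → (n : ℝ) / Real.log n ^ W ≤ (y₂ : ℝ) - y₁ →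
    |(count n y₁ y₂ : ℝ) - sing n * ((y₂ : ℝ) - y₁) / Real.log n ^ 2| ≤
      ε * (sing n * ((y₂ : ℝ) - y₁) / Real.log n ^ 2)

open Classical in
/-- The proportion of the positive integers `m ≤ N` without the property `P` tends to `0`. -/
def AlmostAll (P : ℕ → Prop) : Prop :=
  Tendsto (fun N : ℕ => (((Icc 1 N).filter (fun m => ¬ P m)).card : ℝ) / N) atTop (𝓝 0)

/-- The number of the pairs of primes `(p, q)` with `φ(p) + φ(q) = v`. -/
noncomputable def pairs (v : ℕ) : ℕ :=
  {z : ℕ × ℕ | z.1.Prime ∧ z.2.Prime ∧ Nat.totient z.1 + Nat.totient z.2 = v}.ncard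

/-- `x` is an integral solution of the system `φ(n - x) + 1 = n - x`, `φ(n + x) + 1 = n + x`. -/
def IsSolution (n : ℕ) (x : ℤ) : Prop :=
  1 ≤ (n : ℤ) - x ∧ 1 ≤ (n : ℤ) + x ∧ (Nat.totient ((n : ℤ) - x).toNat : ℤ) + 1 = n - x ∧
    (Nat.totient ((n : ℤ) + x).toNat : ℤ) + 1 = n + x

theorem cnt_eq (n : ℕ) : Pool.Agent.W93.PG.cnt n 0 n = g n := by
  unfold Pool.Agent.W93.PG.cnt g
  refine card_bij (fun p _ => (p, n - p)) ?_ ?_ ?_
  · intro p hp
    rw [mem_filter, mem_Ioc] at hp
    rw [mem_filter, HasAntidiagonal.mem_antidiagonal]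
    exact ⟨by simp only; omega, hp.2⟩
  · intro p _ p' _ h
    exact congrArg Prod.fst h
  · rintro ⟨a, b⟩ h
    rw [mem_filter, HasAntidiagonal.mem_antidiagonal] at h
    obtain ⟨h1, h2, h3⟩ := h
    simp only at h1 h2 h3
    have ha := h2.pos
    refine ⟨a, ?_, ?_⟩
    · rw [mem_filter, mem_Ioc]
      refine ⟨⟨ha, by omega⟩, h2, ?_⟩
      have : n - a = b := by omega
      rw [this]
      exact h3
    · have : n - a = b := by omega
      simp [this]

theorem formula_of (ε : ℝ) (W : ℕ) : ∃ n₀ : ℕ, ∀ n : ℕ, n₀ ≤ n → 2 ∣ n →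
    Pool.Agent.W93.PG.WinP ε W n → Formula ε W n := by
  refine ⟨3, fun n hn _ hw => ⟨?_, hw⟩⟩
  have hn3 : (3 : ℝ) ≤ n := by exact_mod_cast hn
  have hL1 : 1 ≤ Real.log n := by
    rw [Real.le_log_iff_exp_le (by linarith)]
    have := Real.exp_one_lt_d9
    linarith
  have h1 := hw 0 n (by omega) le_rfl (by
    rw [Nat.cast_zero, sub_zero]
    exact div_le_self (Nat.cast_nonneg _) (one_le_pow₀ hL1))
  rw [cnt_eq] at h1
  have e : sing n * ((n : ℝ) - ((0 : ℕ) : ℝ)) / Real.log n ^ 2 = HL n := by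
    unfold Pool.Agent.H560R3.GB.HL
    push_cast
    ring
  rw [e] at h1
  exact h1

/-- the exceptional set in the classes `a` modulo `q` -/
theorem eb (ε : ℝ) (hε : 0 < ε) (W : ℕ) (a : ℤ) (ha : a ≠ 0) (A : ℕ) :
    Pool.Agent.N733.TG.EB a (fun n => 2 ∣ n → Formula ε W n) A := by
  obtain ⟨x₀, hx₀⟩ := Pool.Agent.R460.GH.class_asymp (Formula ε W) ε hε W (formula_of ε W) (1 / 6) (by norm_num) A 1
  have hlog := Real.tendsto_log_atTop.eventually_ge_atTop (a.natAbs : ℝ)
  rw [eventually_atTop] at hlog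
  obtain ⟨x₁, hx₁⟩ := hlog
  refine ⟨max x₀ (max x₁ 1), fun X hX q hq hqX V hV => ?_⟩
  have hX0 : x₀ ≤ X := le_trans (le_max_left _ _) hX
  have hX1 : x₁ ≤ X := le_trans (le_trans (le_max_left _ _) (le_max_right _ _)) hX
  have hX2 : (1 : ℝ) ≤ X := le_trans (le_trans (le_max_right _ _) (le_max_right _ _)) hX
  have hq' : (q : ℝ) ≤ X ^ ((2 : ℝ) / 3 - 1 / 6) := by
    rw [show (2 : ℝ) / 3 - 1 / 6 = 1 / 2 by norm_num, ← Real.sqrt_eq_rpow]
    exact Real.le_sqrt_of_sq_le hqX
  have hgcd : (Int.gcd a q : ℝ) ≤ Real.log X ^ 1 := by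
    rw [pow_one]
    refine le_trans ?_ (hx₁ X hX1)
    have : Int.gcd a q ≤ a.natAbs := Nat.le_of_dvd (Int.natAbs_pos.2 ha) (Nat.gcd_dvd_left _ _)
    exact_mod_cast this
  obtain ⟨hfin, hcard⟩ := hx₀ X hX0 q hq hq' a hgcd
  refine le_trans ?_ hcard
  have h1 : (V.image (fun v : ℕ => ((q : ℤ) * v + a).toNat)).card = V.card := by
    apply card_image_of_injOn
    intro v hv w hw h
    have e1 := (hV v hv).1
    have e2 := (hV w hw).1
    simp only at h
    have e3 : (q : ℤ) * v + a = (q : ℤ) * w + a := by omega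
    have e4 : (q : ℤ) * v = (q : ℤ) * w := by linarith
    have e5 : (v : ℤ) = w := mul_left_cancel₀ (by exact_mod_cast (by omega : q ≠ 0)) e4
    exact_mod_cast e5
  rw [← h1, ← Set.ncard_coe_finset]
  have h2 : ((V.image (fun v : ℕ => ((q : ℤ) * v + a).toNat)) : Set ℕ).ncard ≤
      ({n : ℕ | 0 < n ∧ (n : ℝ) ≤ X ∧ 2 ∣ n ∧ (n : ℤ) ≡ a [ZMOD q] ∧ ¬ Formula ε W n}).ncard := by
    apply Set.ncard_le_ncard _ hfin
    intro n hn
    rw [mem_coe, mem_image] at hn
    obtain ⟨v, hv, rfl⟩ := hn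
    obtain ⟨e1, e2, e3⟩ := hV v hv
    have e4 : ((((q : ℤ) * v + a).toNat : ℕ) : ℤ) = (q : ℤ) * v + a := Int.toNat_of_nonneg e1.le
    push Not at e3
    refine ⟨by omega, ?_, e3.1, ?_, e3.2⟩
    · have e5 : ((((q : ℤ) * v + a).toNat : ℕ) : ℝ) = (((q : ℤ) * v + a : ℤ) : ℝ) := by
        rw [← Int.cast_natCast, e4]
      rw [e5]
      exact e2
    · rw [e4, Int.modEq_iff_dvd]
      exact ⟨-(v : ℤ), by ring⟩
  exact_mod_cast h2

theorem sm_of {f : ℕ → ℕ} {c : ℤ} (hf : Shifted f c) : Pool.Agent.N733.TG.SM f c :=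
  ⟨hf.mul, hf.pos, hf.growth, hf.prime⟩

open Classical in
theorem almostAll_iff (P : ℕ → Prop) : AlmostAll P ↔ ∀ ε : ℝ, 0 < ε → ∃ N₀ : ℕ, ∀ N : ℕ, N₀ ≤ N →
    (((Icc 1 N).filter (fun m => ¬ P m)).card : ℝ) ≤ ε * N := by
  unfold AlmostAll
  rw [Metric.tendsto_atTop]
  constructor
  · intro h ε hε
    obtain ⟨N₀, hN₀⟩ := h ε hε
    refine ⟨max N₀ 1, fun N hN => ?_⟩
    have h1 := hN₀ N (le_trans (le_max_left _ _) hN)
    have h2 : (0 : ℝ) < N := by exact_mod_cast (le_trans (le_max_right N₀ 1) hN)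
    rw [Real.dist_eq, sub_zero, abs_of_nonneg (by positivity), div_lt_iff₀ h2] at h1
    exact h1.le
  · intro h ε hε
    obtain ⟨N₀, hN₀⟩ := h (ε / 2) (by positivity)
    refine ⟨max N₀ 1, fun N hN => ?_⟩
    have h1 := hN₀ N (le_trans (le_max_left _ _) hN)
    have h2 : (0 : ℝ) < N := by exact_mod_cast (le_trans (le_max_right N₀ 1) hN)
    rw [Real.dist_eq, sub_zero, abs_of_nonneg (by positivity), div_lt_iff₀ h2]
    nlinarith

theorem almostAll_and {P Q R : ℕ → Prop} (hP : AlmostAll P) (hQ : AlmostAll Q) (m₀ : ℕ)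
    (h : ∀ m, m₀ ≤ m → P m → Q m → R m) : AlmostAll R := by
  classical
  rw [almostAll_iff] at *
  intro ε hε
  obtain ⟨N₁, h₁⟩ := hP (ε / 3) (by positivity)
  obtain ⟨N₂, h₂⟩ := hQ (ε / 3) (by positivity)
  obtain ⟨N₃, h₃⟩ := exists_nat_gt (3 * m₀ / ε)
  refine ⟨max N₁ (max N₂ N₃), fun N hN => ?_⟩
  have b1 := h₁ N (le_trans (le_max_left _ _) hN)
  have b2 := h₂ N (le_trans (le_trans (le_max_left _ _) (le_max_right _ _)) hN)
  have b3 : (N₃ : ℝ) ≤ N := by exact_mod_cast (le_trans (le_trans (le_max_right _ _) (le_max_right _ _)) hN)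
  have b4 : (m₀ : ℝ) ≤ ε / 3 * N := by
    have : 3 * m₀ / ε ≤ N := by linarith
    rw [div_le_iff₀ hε] at this
    linarith
  have hsub : (Icc 1 N).filter (fun m => ¬ R m) ⊆
      ((Icc 1 N).filter (fun m => ¬ P m) ∪ (Icc 1 N).filter (fun m => ¬ Q m)) ∪ Icc 1 m₀ := by
    intro m hm
    rw [mem_filter, mem_Icc] at hm
    rw [mem_union, mem_union, mem_filter, mem_filter, mem_Icc, mem_Icc]
    by_cases h1 : P m
    · by_cases h2 : Q m
      · by_cases h3 : m₀ ≤ m
        · exact absurd (h m h3 h1 h2) hm.2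
        · right
          omega
      · left; right
        exact ⟨hm.1, h2⟩
    · left; left
      exact ⟨hm.1, h1⟩
  have hc : ((Icc 1 N).filter (fun m => ¬ R m)).card ≤
      (((Icc 1 N).filter (fun m => ¬ P m)).card + ((Icc 1 N).filter (fun m => ¬ Q m)).card) + m₀ := by
    refine (card_le_card hsub).trans ((card_union_le _ _).trans ?_)
    have := card_union_le ((Icc 1 N).filter (fun m => ¬ P m)) ((Icc 1 N).filter (fun m => ¬ Q m))
    rw [Nat.card_Icc]
    omega
  have hc' : (((Icc 1 N).filter (fun m => ¬ R m)).card : ℝ) ≤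
      ((((Icc 1 N).filter (fun m => ¬ P m)).card : ℝ) + ((Icc 1 N).filter (fun m => ¬ Q m)).card) + m₀ := by
    exact_mod_cast hc
  linarith

theorem card_mono' {N : ℕ} {P Q : ℕ → Prop} {dP : DecidablePred P} {dQ : DecidablePred Q} (h : ∀ m, P m → Q m) :
    (@Finset.filter _ P dP (Icc 1 N)).card ≤ (@Finset.filter _ Q dQ (Icc 1 N)).card :=
  card_le_card (fun m hm => Finset.mem_filter.2 ⟨(Finset.mem_filter.1 hm).1, h m (Finset.mem_filter.1 hm).2⟩)

theorem general (f : ℕ → ℕ) (c a : ℤ) (ε : ℝ) (W : ℕ) (hf : Shifted f c) (ha : a ≠ 0) (hε : 0 < ε) :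
    AlmostAll (fun m => 0 < (f m : ℤ) + a ∧ (Even ((f m : ℤ) + a) → Formula ε W ((f m : ℤ) + a).toNat)) := by
  classical
  rw [almostAll_iff]
  intro δ hδ
  obtain ⟨N₀, h⟩ := Pool.Agent.N733.TG.dens (sm_of hf) a (fun n => 2 ∣ n → Formula ε W n) (eb ε hε W a ha) δ hδ
  refine ⟨N₀, fun N hN => le_trans (Nat.cast_le.2 (card_mono' ?_)) (h N hN)⟩
  intro m hm h1
  refine hm ⟨h1.1, fun h2 => h1.2 ?_⟩
  rw [even_iff_two_dvd] at h2
  have h3 : ((((f m : ℤ) + a).toNat : ℕ) : ℤ) = (f m : ℤ) + a := Int.toNat_of_nonneg h1.1.le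
  have h4 : (2 : ℤ) ∣ ((((f m : ℤ) + a).toNat : ℕ) : ℤ) := by rw [h3]; exact h2
  exact_mod_cast h4

theorem shifted_totient : Shifted Nat.totient (-1) where
  mul := fun m n h => Nat.totient_mul h
  pos := fun m hm => Nat.totient_pos.2 hm
  growth := ⟨1, 1, fun m _ => by rw [one_mul, pow_one]; exact Nat.totient_le m⟩
  prime := ⟨0, fun p _ hp => by
    rw [Nat.totient_prime hp]
    have := hp.pos
    omega⟩

theorem shifted_sigma : Shifted (fun m => ∑ d ∈ m.divisors, d) 1 where
  mul := fun m n h => by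
    have := ArithmeticFunction.isMultiplicative_sigma (k := 1).map_mul_of_coprime h
    simpa [ArithmeticFunction.sigma_one_apply] using this
  pos := fun m hm => by
    calc 1 ≤ m := hm
      _ ≤ ∑ d ∈ m.divisors, d := single_le_sum (f := fun d => d) (fun _ _ => Nat.zero_le _)
        (Nat.mem_divisors_self m (by omega))
  growth := ⟨1, 2, fun m hm => by
    calc ∑ d ∈ m.divisors, d ≤ ∑ d ∈ m.divisors, m := sum_le_sum (fun d hd => Nat.divisor_le hd)
      _ = m.divisors.card * m := by rw [sum_const, smul_eq_mul]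
      _ ≤ m * m := Nat.mul_le_mul_right _ (Nat.card_divisors_le_self m)
      _ = 1 * m ^ 2 := by ring⟩
  prime := ⟨0, fun p _ hp => by
    rw [Nat.Prime.sum_divisors hp]
    push_cast
    ring⟩

theorem pairs_eq (v : ℕ) : pairs v = g (v + 2) := by
  unfold pairs g
  rw [← Set.ncard_coe_finset]
  congr 1
  ext z
  rw [mem_coe, mem_filter, HasAntidiagonal.mem_antidiagonal, Set.mem_ofPred_eq]
  constructor
  · rintro ⟨h1, h2, h3⟩
    rw [Nat.totient_prime h1, Nat.totient_prime h2] at h3
    have := h1.pos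
    have := h2.pos
    exact ⟨by omega, h1, h2⟩
  · rintro ⟨h3, h1, h2⟩
    refine ⟨h1, h2, ?_⟩
    rw [Nat.totient_prime h1, Nat.totient_prime h2]
    have := h1.pos
    have := h2.pos
    omega

theorem HL_pos {n : ℕ} (hn : 2 ≤ n) : 0 < HL n := by
  unfold Pool.Agent.H560R3.GB.HL
  have h1 := Pool.Agent.W93.GB.one_le_sing n
  have h2 : (2 : ℝ) ≤ n := by exact_mod_cast hn
  have h3 : 0 < Real.log n := Real.log_pos (by linarith)
  have h4 : 0 < sing n := by linarith
  positivity

theorem solution_of {m : ℕ} (hm : 3 ≤ m) (h : |(g (Nat.totient m + 2) : ℝ) - HL (Nat.totient m + 2)| ≤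
    1 / 2 * HL (Nat.totient m + 2)) : ∃ x : ℤ, IsSolution (Nat.totient m / 2 + 1) x := by
  have h1 : 0 < HL (Nat.totient m + 2) := HL_pos (by omega)
  have h2 : (0 : ℝ) < g (Nat.totient m + 2) := by
    have := (abs_le.1 h).1
    linarith
  have h3 : 0 < g (Nat.totient m + 2) := by exact_mod_cast h2
  unfold Pool.Agent.H560R3.GB.g at h3
  rw [card_pos] at h3
  obtain ⟨z, hz⟩ := h3
  rw [mem_filter, HasAntidiagonal.mem_antidiagonal] at hz
  obtain ⟨e1, e2, e3⟩ := hz
  have he := Nat.totient_even (n := m) (by omega)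
  obtain ⟨t, ht⟩ := he
  have en : Nat.totient m / 2 + 1 = t + 1 := by omega
  rw [en]
  have p1 := e2.pos
  have p2 := e3.pos
  refine ⟨(z.2 : ℤ) - (t + 1), ?_⟩
  have a1 : ((t + 1 : ℕ) : ℤ) - ((z.2 : ℤ) - (t + 1)) = z.1 := by
    push_cast
    omega
  have a2 : ((t + 1 : ℕ) : ℤ) + ((z.2 : ℤ) - (t + 1)) = z.2 := by
    push_cast
    omega
  unfold IsSolution
  rw [a1, a2, Int.toNat_natCast, Int.toNat_natCast, Nat.totient_prime e2, Nat.totient_prime e3]
  omega

/-- **Goldbach's problem for the values of multiplicative functions.** (1) Let `f` be a positive multiplicative function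
of at most polynomial growth with `f p = p + c` for all large primes `p`, and let `a ≠ 0`. For almost all `m` the integer
`f m + a` is positive and, if it is even, satisfies the formula of Hardy and Littlewood for the number of
representations as a sum of two primes, also if one of the primes is restricted to a window. (2) Euler's function and
the sum of the divisors are examples. (3) For almost all `m` the number of pairs of primes with `φ(p) + φ(q) = φ(m)` is
`HL (φ(m) + 2)` up to a relative error `ε`. (4) For almost all `m` the system `φ(n - x) + 1 = n - x`,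
`φ(n + x) + 1 = n + x` has an integral solution for `n = φ(m) / 2 + 1`. -/
theorem result :
    (∀ (f : ℕ → ℕ) (c a : ℤ) (ε : ℝ) (W : ℕ), Shifted f c → a ≠ 0 → 0 < ε →
      AlmostAll (fun m => 0 < (f m : ℤ) + a ∧ (Even ((f m : ℤ) + a) → Formula ε W ((f m : ℤ) + a).toNat))) ∧
    (Shifted Nat.totient (-1) ∧ Shifted (fun m => ∑ d ∈ m.divisors, d) 1) ∧
    (∀ ε : ℝ, 0 < ε → AlmostAll (fun m => |(pairs (Nat.totient m) : ℝ) - HL (Nat.totient m + 2)| ≤
      ε * HL (Nat.totient m + 2))) ∧
    AlmostAll (fun m => ∃ x : ℤ, IsSolution (Nat.totient m / 2 + 1) x) := by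
  have key : ∀ ε : ℝ, 0 < ε → AlmostAll (fun m => |(g (Nat.totient m + 2) : ℝ) - HL (Nat.totient m + 2)| ≤
      ε * HL (Nat.totient m + 2)) := by
    intro ε hε
    have h1 := general Nat.totient (-1) 2 ε 0 shifted_totient (by norm_num) hε
    refine almostAll_and h1 h1 3 (fun m hm h2 _ => ?_)
    have he := Nat.totient_even (n := m) (by omega)
    have e1 : ((Nat.totient m : ℤ) + 2).toNat = Nat.totient m + 2 := by omega
    have e2 : Even ((Nat.totient m : ℤ) + 2) := by
      obtain ⟨t, ht⟩ := he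
      exact ⟨t + 1, by omega⟩
    have h3 := (h2.2 e2).1
    rw [e1] at h3
    exact h3
  refine ⟨general, ⟨shifted_totient, shifted_sigma⟩, fun ε hε => ?_, ?_⟩
  · have h := key ε hε
    simp_rw [pairs_eq]
    exact h
  · have h := key (1 / 2) (by norm_num)
    exact almostAll_and h h 3 (fun m hm h1 _ => solution_of hm h1)

end Pool.Agent.N733.Shelf.TotientValues
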